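import Pool.Agent.Q161.ESV.Stm2

/-! Project ESV, job RPZ (helper21). -/

set_option autoImplicit false

namespace Pool.Agent.Q21.ESV

open Pool.Agent.Q161.ESV

section

variable {F : Type} [Field F] [NumberField F] (W : Type) [AddCommGroup W] [DistribMulAction (GF F) W]

lemma cob_apply (D : F) (P : W) (σ : GF F) : cob W D P σ = chi D σ • σ • P - P := rfl

lemma cob_mem_Z1 (hchi : S_CHI) (hW : Adm F W) (D : F) (P : W) : cob W D P ∈ Z1 W D := by
  obtain ⟨_, hmul, _, L₂, fL₂, tL₂⟩ := (hchi F).1 D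
  obtain ⟨L₁, fL₁, tL₁⟩ := hW.stab P
  refine ⟨fun σ τ => ?_, L₁ ⊔ L₂, ?_, fun σ hσ => ?_⟩
  · simp only [cob_apply, hmul σ τ, mul_smul, smul_sub]
    rw [smul_comm σ (chi D τ)]
    abel
  · have := fL₁
    have := fL₂
    exact IntermediateField.finiteDimensional_sup L₁ L₂
  · have h1 : σ ∈ L₁.fixingSubgroup := IntermediateField.fixingSubgroup_antitone le_sup_left hσ
    have h2 : σ ∈ L₂.fixingSubgroup := IntermediateField.fixingSubgroup_antitone le_sup_right hσ
    rw [cob_apply, tL₂ σ h2, tL₁ σ h1, one_smul, sub_self]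

lemma cob_mem (hchi : S_CHI) (hW : Adm F W) (B : ℕ) (D : F) (P : W) : cob W D P ∈ SelZ W B D :=
  ⟨cob_mem_Z1 W hchi hW D P, ⟨fun _ _ _ _ => ⟨P, fun _ _ => rfl⟩, fun _ _ _ _ _ => ⟨P, fun _ _ => rfl⟩⟩⟩

lemma selZ_mono {B B' : ℕ} (h : B ∣ B') (D : F) : SelZ W B D ≤ SelZ W B' D := by
  rintro c ⟨hc, hl⟩
  exact ⟨hc, ⟨fun l _ hlB ψ => hl.ine l (fun h' => hlB (h'.trans h)) ψ,
    fun l _ hlB ψ hd => hl.dec l (fun h' => hlB (h'.trans h)) ψ hd⟩⟩

lemma cob_congr {D D' : F} (h : chi D = chi D') : cob W D = cob W D' := by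
  ext P σ
  simp only [cob_apply, h]

lemma selZ_le_congr {D D' : F} (h : chi D = chi D') (B : ℕ) : SelZ W B D ≤ SelZ W B D' := by
  rintro c ⟨⟨hc1, hc2⟩, hl⟩
  refine ⟨⟨fun σ τ => ?_, hc2⟩, ⟨fun l _ hlB ψ => ?_, fun l _ hlB ψ hd => ?_⟩⟩
  · rw [← h]; exact hc1 σ τ
  · rw [← cob_congr W h]; exact hl.ine l hlB ψ
  · rw [← cob_congr W h]; rw [← h] at hd; exact hl.dec l hlB ψ hd

lemma selZ_congr {D D' : F} (h : chi D = chi D') (B : ℕ) : SelZ W B D = SelZ W B D' :=
  le_antisymm (selZ_le_congr W h B) (selZ_le_congr W h.symm B)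

/-- the number of classes killed by two -/
noncomputable def cnt2 {A : Type} [AddCommGroup A] (S R : AddSubgroup A) : ℕ :=
  Nat.card {x : S ⧸ R.addSubgroupOf S // x + x = 0}

lemma sel2_eq_cnt2 (B : ℕ) (D : F) : sel2 W B D = cnt2 (SelZ W B D) (cob W D).range := rfl

lemma sel2_congr {D D' : F} (h : chi D = chi D') (B : ℕ) : sel2 W B D = sel2 W B D' := by
  rw [sel2_eq_cnt2, sel2_eq_cnt2, selZ_congr W h B, cob_congr W h]

/-- the map from the Selmer group for `B` to that for a multiple of `B` -/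
noncomputable def selMap {B B' : ℕ} (h : B ∣ B') (D : F) : Sel W B D →+ Sel W B' D :=
  QuotientAddGroup.map _ _ (AddSubgroup.inclusion (selZ_mono W h D)) (by
    intro x hx
    exact hx)

lemma selMap_injective {B B' : ℕ} (h : B ∣ B') (D : F) : Function.Injective (selMap W h D) := by
  rw [injective_iff_map_eq_zero]
  intro x hx
  obtain ⟨c, rfl⟩ := QuotientAddGroup.mk_surjective x
  have h1 : (QuotientAddGroup.mk (AddSubgroup.inclusion (selZ_mono W h D) c) : Sel W B' D) = 0 := hx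
  rw [QuotientAddGroup.eq_zero_iff] at h1 ⊢
  exact h1

end

theorem rpz (hchi : S_CHI) : S_RPZ := by
  intro F _ _ W _ _ hW
  refine ⟨fun B D x hx => ?_, fun B D u hu => ?_, fun B B' D h _ hfin => ?_⟩
  · obtain ⟨c, rfl⟩ := QuotientAddGroup.mk_surjective x
    have h1 : (QuotientAddGroup.mk (c + c) : Sel W B D) = 0 := hx
    rw [QuotientAddGroup.eq_zero_iff] at h1
    obtain ⟨Q, hQ⟩ := h1
    obtain ⟨Q', hQ'⟩ := hW.div Q
    have hQ2 : cob W D Q = (c : GF F → W) + (c : GF F → W) := hQ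
    refine ⟨c - ⟨cob W D Q', cob_mem W hchi hW B D Q'⟩, fun σ => ?_, ?_⟩
    · have h2 : cob W D Q' σ + cob W D Q' σ = (c : GF F → W) σ + (c : GF F → W) σ := by
        have h3 := congrFun hQ2 σ
        rw [← hQ', map_add] at h3
        exact h3
      have h4 : ((c - ⟨cob W D Q', cob_mem W hchi hW B D Q'⟩ : SelZ W B D) : GF F → W) σ =
          (c : GF F → W) σ - cob W D Q' σ := rfl
      rw [h4]
      have h5 : (c : GF F → W) σ - cob W D Q' σ + ((c : GF F → W) σ - cob W D Q' σ) =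
          ((c : GF F → W) σ + (c : GF F → W) σ) - (cob W D Q' σ + cob W D Q' σ) := by abel
      rw [h5, h2, sub_self]
    · rw [QuotientAddGroup.eq]
      refine ⟨Q', ?_⟩
      have h6 : (((-(c - ⟨cob W D Q', cob_mem W hchi hW B D Q'⟩) + c : SelZ W B D)) : GF F → W) =
          -((c : GF F → W) - cob W D Q') + (c : GF F → W) := rfl
      have h7 : (cob W D) Q' = -((c : GF F → W) - cob W D Q') + (c : GF F → W) := by abel
      exact h7.trans h6.symm
  · exact sel2_congr W ((hchi F).2.1 D u hu) B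
  · have hinj : Function.Injective (fun x : Sel2 W B D => (⟨selMap W h D x.1, by
        rw [← map_add, x.2, map_zero]⟩ : Sel2 W B' D)) := by
      intro x y hxy
      exact Subtype.ext (selMap_injective W h D (congrArg Subtype.val hxy))
    exact ⟨Finite.of_injective _ hinj, Nat.card_le_card_of_injective _ hinj⟩

end Pool.Agent.Q21.ESV
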